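import Pool.Agent.Helper14D.Stm

/-!
# Growth of powers of subspaces of a field
-/

set_option autoImplicit false

namespace Pool.Agent.Helper57K1.VD

open Module

section growth

variable {κ Ω : Type} [Field κ] [Field Ω] [Algebra κ Ω]

/-- the field generated by the quotients of the elements of `P` -/
noncomputable def FF (P : Submodule κ Ω) : IntermediateField κ Ω :=
  IntermediateField.adjoin κ {z | ∃ x ∈ P, ∃ y ∈ P, z = x / y}

lemma div_mem_FF {P : Submodule κ Ω} {x y : Ω} (hx : x ∈ P) (hy : y ∈ P) : x / y ∈ FF P :=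
  IntermediateField.subset_adjoin _ _ ⟨x, hx, y, hy, rfl⟩

/-- elements of `P^n` over `p^n` are in the field -/
lemma pow_div_mem {P : Submodule κ Ω} {p : Ω} (hp : p ∈ P) (n : ℕ) {x : Ω} (hx : x ∈ P ^ n) :
    x / p ^ n ∈ FF P := by
  induction n generalizing x with
  | zero =>
    rw [pow_zero] at hx ⊢
    obtain ⟨c, rfl⟩ := Submodule.mem_one.1 hx
    rw [div_one]
    exact (FF P).algebraMap_mem c
  | succ n ih =>
    rw [pow_succ] at hx
    refine Submodule.mul_induction_on hx ?_ ?_
    · intro a ha b hb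
      rw [pow_succ, mul_div_mul_comm]
      exact (FF P).mul_mem (ih ha) (div_mem_FF hb hp)
    · intro a b ha hb
      rw [add_div]
      exact (FF P).add_mem ha hb

/-- elements of the field are quotients -/
lemma FF_quot {P : Submodule κ Ω} (hP : P ≠ ⊥) {z : Ω} (hz : z ∈ FF P) :
    ∃ (m : ℕ) (g : Ω), g ∈ P ^ m ∧ g ≠ 0 ∧ z * g ∈ P ^ m := by
  obtain ⟨p, hp, hp0⟩ := (Submodule.ne_bot_iff P).1 hP
  unfold FF at hz
  induction hz using IntermediateField.adjoin_induction with
  | mem x hx =>
    obtain ⟨a, ha, b, hb, rfl⟩ := hx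
    by_cases hb0 : b = 0
    · exact ⟨1, p, by simpa using hp, hp0, by simp [hb0]⟩
    · exact ⟨1, b, by simpa using hb, hb0, by rw [div_mul_cancel₀ _ hb0]; simpa using ha⟩
  | algebraMap c =>
    refine ⟨0, 1, ?_, one_ne_zero, ?_⟩
    · rw [pow_zero]; exact Submodule.mem_one.2 ⟨1, map_one _⟩
    · rw [pow_zero, mul_one]; exact Submodule.mem_one.2 ⟨c, rfl⟩
  | add x y _ _ hx hy =>
    obtain ⟨m, g, hg, hg0, h1⟩ := hx
    obtain ⟨m', g', hg', hg0', h1'⟩ := hy
    refine ⟨m + m', g * g', ?_, mul_ne_zero hg0 hg0', ?_⟩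
    · rw [pow_add]; exact Submodule.mul_mem_mul hg hg'
    · rw [pow_add]
      have e : (x + y) * (g * g') = (x * g) * g' + g * (y * g') := by ring
      rw [e]
      exact add_mem (Submodule.mul_mem_mul h1 hg') (Submodule.mul_mem_mul hg h1')
  | inv x _ hx =>
    obtain ⟨m, g, hg, hg0, h1⟩ := hx
    by_cases hx0 : x = 0
    · exact ⟨m, g, hg, hg0, by simp [hx0]⟩
    · exact ⟨m, x * g, h1, mul_ne_zero hx0 hg0, by rw [inv_mul_cancel_left₀ hx0]; exact hg⟩
  | mul x y _ _ hx hy =>
    obtain ⟨m, g, hg, hg0, h1⟩ := hx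
    obtain ⟨m', g', hg', hg0', h1'⟩ := hy
    refine ⟨m + m', g * g', ?_, mul_ne_zero hg0 hg0', ?_⟩
    · rw [pow_add]; exact Submodule.mul_mem_mul hg hg'
    · rw [pow_add]
      have e : (x * y) * (g * g') = (x * g) * (y * g') := by ring
      rw [e]
      exact Submodule.mul_mem_mul h1 h1'

/-- common denominators -/
lemma FF_common {P : Submodule κ Ω} (hP : P ≠ ⊥) {ι : Type} (s : Finset ι) (z : ι → Ω)
    (hz : ∀ i ∈ s, z i ∈ FF P) :
    ∃ (m : ℕ) (g : Ω), g ∈ P ^ m ∧ g ≠ 0 ∧ ∀ i ∈ s, z i * g ∈ P ^ m := by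
  classical
  induction s using Finset.induction_on with
  | empty =>
    refine ⟨0, 1, ?_, one_ne_zero, by simp⟩
    rw [pow_zero]; exact Submodule.mem_one.2 ⟨1, map_one _⟩
  | insert i s hi ih =>
    obtain ⟨m, g, hg, hg0, h1⟩ := ih fun j hj => hz j (Finset.mem_insert_of_mem hj)
    obtain ⟨m', g', hg', hg0', h1'⟩ := FF_quot hP (hz i (Finset.mem_insert_self i s))
    refine ⟨m + m', g * g', ?_, mul_ne_zero hg0 hg0', ?_⟩
    · rw [pow_add]; exact Submodule.mul_mem_mul hg hg'
    · intro j hj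
      rw [pow_add]
      rcases Finset.mem_insert.1 hj with rfl | hj
      · have e : z j * (g * g') = g * (z j * g') := by ring
        rw [e]
        exact Submodule.mul_mem_mul hg h1'
      · rw [← mul_assoc]
        exact Submodule.mul_mem_mul (h1 j hj) hg'

/-- the linear map `(x_i) ↦ ∑ x_i w_i` -/
noncomputable def comb (A : Submodule κ Ω) {r : ℕ} (w : Fin r → Ω) : (Fin r → A) →ₗ[κ] Ω :=
  ∑ i, (LinearMap.mulRight κ (w i)) ∘ₗ A.subtype ∘ₗ LinearMap.proj i

lemma comb_apply (A : Submodule κ Ω) {r : ℕ} (w : Fin r → Ω) (x : Fin r → A) :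
    comb A w x = ∑ i, (x i : Ω) * w i := by
  simp [comb]

lemma finrank_dom (A : Submodule κ Ω) [FiniteDimensional κ A] (r : ℕ) :
    finrank κ (Fin r → A) = r * finrank κ A := by
  rw [Module.finrank_pi_fintype]
  simp

lemma fd_pow (P : Submodule κ Ω) [FiniteDimensional κ P] (n : ℕ) :
    FiniteDimensional κ (P ^ n : Submodule κ Ω) :=
  Module.Finite.iff_fg.2 ((Module.Finite.iff_fg.1 ‹FiniteDimensional κ P›).pow n)

lemma fd_mul (P C : Submodule κ Ω) [h1 : FiniteDimensional κ P] [h2 : FiniteDimensional κ C] :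
    FiniteDimensional κ (P * C : Submodule κ Ω) :=
  Module.Finite.iff_fg.2 ((Module.Finite.iff_fg.1 h1).mul (Module.Finite.iff_fg.1 h2))

lemma fd_span (F : IntermediateField κ Ω) (C : Submodule κ Ω) [h : FiniteDimensional κ C] :
    FiniteDimensional F (Submodule.span F (C : Set Ω)) := by
  obtain ⟨s, hs⟩ := Module.Finite.iff_fg.1 h
  have e : Submodule.span F (C : Set Ω) = Submodule.span F (s : Set Ω) := by
    apply le_antisymm
    · rw [Submodule.span_le]
      have h1 : C ≤ (Submodule.span F (s : Set Ω)).restrictScalars κ := by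
        rw [← hs, Submodule.span_le]
        exact Submodule.subset_span
      exact h1
    · apply Submodule.span_mono
      rw [← hs]
      exact Submodule.subset_span
  rw [e]
  exact FiniteDimensional.span_finset F s

theorem growth_aux {P C : Submodule κ Ω} (hP : P ≠ ⊥) [FiniteDimensional κ P]
    [FiniteDimensional κ C] :
    ∃ m : ℕ, ∀ n : ℕ,
      finrank (FF P) (Submodule.span (FF P) (C : Set Ω)) * finrank κ (P ^ n : Submodule κ Ω) ≤
        finrank κ (P ^ n * C : Submodule κ Ω) ∧
      finrank κ (P ^ n * C : Submodule κ Ω) ≤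
        finrank (FF P) (Submodule.span (FF P) (C : Set Ω)) *
          finrank κ (P ^ (n + m) : Submodule κ Ω) := by
  obtain ⟨p, hp, hp0⟩ := (Submodule.ne_bot_iff P).1 hP
  have := fd_span (FF P) C
  obtain ⟨w, hwC, hws, hwi⟩ := Submodule.exists_fun_fin_finrank_span_eq (FF P) (C : Set Ω)
  generalize hρ : finrank (FF P) (Submodule.span (FF P) (C : Set Ω)) = ρ at w hwC hws hwi
  obtain ⟨s, hs⟩ := Module.Finite.iff_fg.1 ‹FiniteDimensional κ C›
  -- coordinates of the generators
  have hcoord : ∀ c : Ω, c ∈ C → ∃ f : Fin ρ → FF P, c = ∑ i, f i • w i := by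
    intro c hc
    have h1 : c ∈ Submodule.span (FF P) (Set.range w) := by
      rw [hws]; exact Submodule.subset_span hc
    obtain ⟨f, hf⟩ := (Submodule.mem_span_range_iff_exists_fun (FF P)).1 h1
    exact ⟨f, hf.symm⟩
  have hsC : ∀ c ∈ s, c ∈ C := fun c hc => by rw [← hs]; exact Submodule.subset_span hc
  have hcoord' : ∀ c : s, ∃ f : Fin ρ → FF P, (c : Ω) = ∑ i, f i • w i :=
    fun c => hcoord c (hsC c c.2)
  choose f hf using hcoord'
  obtain ⟨m, g, hg, hg0, hgm⟩ := FF_common hP (Finset.univ : Finset (s × Fin ρ))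
    (fun z => ((f z.1 z.2 : FF P) : Ω)) (fun z _ => (f z.1 z.2).2)
  refine ⟨m, fun n => ⟨?_, ?_⟩⟩
  · have := fd_pow P n
    have := fd_mul (P ^ n) C
    rw [← finrank_dom]
    have hinj : Function.Injective (comb (P ^ n) w) := by
      rw [← LinearMap.ker_eq_bot, LinearMap.ker_eq_bot']
      intro x hx
      rw [comb_apply] at hx
      have h1 : ∑ i, (⟨(x i : Ω) / p ^ n, pow_div_mem hp n (x i).2⟩ : FF P) • w i = 0 := by
        have h2 : ∀ i, (⟨(x i : Ω) / p ^ n, pow_div_mem hp n (x i).2⟩ : FF P) • w i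
            = (p ^ n)⁻¹ * ((x i : Ω) * w i) := by
          intro i
          change ((x i : Ω) / p ^ n) • w i = _
          rw [smul_eq_mul]
          ring
        rw [Finset.sum_congr rfl fun i _ => h2 i, ← Finset.mul_sum, hx, mul_zero]
      have h3 := Fintype.linearIndependent_iff.1 hwi _ h1
      funext i
      have h4 := congrArg (fun z : FF P => (z : Ω)) (h3 i)
      have h5 : (x i : Ω) / p ^ n = 0 := h4
      rw [div_eq_zero_iff] at h5
      rcases h5 with h5 | h5
      · exact Subtype.ext h5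
      · exact absurd h5 (pow_ne_zero n hp0)
    rw [← LinearMap.finrank_range_of_inj hinj]
    apply Submodule.finrank_mono
    rintro _ ⟨x, rfl⟩
    rw [comb_apply]
    exact Submodule.sum_mem _ fun i _ => Submodule.mul_mem_mul (x i).2 (hwC i)
  · have := fd_pow P n
    have := fd_pow P (n + m)
    have := fd_mul (P ^ n) C
    rw [← finrank_dom]
    have hmul : Function.Injective (LinearMap.mulLeft κ g) := by
      intro x y hxy
      simpa [hg0] using hxy
    have e1 := LinearEquiv.finrank_eq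
      (Submodule.equivMapOfInjective (LinearMap.mulLeft κ g) hmul (P ^ n * C))
    rw [e1]
    refine le_trans (Submodule.finrank_mono ?_) (LinearMap.finrank_range_le (comb (P ^ (n + m)) w))
    rw [Submodule.map_le_iff_le_comap, Submodule.mul_le]
    intro x hx c hc
    rw [Submodule.mem_comap, LinearMap.mulLeft_apply]
    rw [← hs] at hc
    refine Submodule.span_induction (p := fun c _ => g * (x * c) ∈
      LinearMap.range (comb (P ^ (n + m)) w)) ?_ ?_ ?_ ?_ hc
    · intro c hc
      have hxm : ∀ i, x * (((f ⟨c, hc⟩ i : FF P) : Ω) * g) ∈ P ^ (n + m) := by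
        intro i
        rw [pow_add]
        exact Submodule.mul_mem_mul hx (hgm (⟨c, hc⟩, i) (Finset.mem_univ _))
      refine ⟨fun i => ⟨_, hxm i⟩, ?_⟩
      rw [comb_apply]
      conv_rhs => rw [show c = ∑ i, f ⟨c, hc⟩ i • w i from hf ⟨c, hc⟩]
      rw [Finset.mul_sum, Finset.mul_sum]
      refine Finset.sum_congr rfl fun i _ => ?_
      change _ = g * (x * (((f ⟨c, hc⟩ i : FF P) : Ω) • w i))
      rw [smul_eq_mul]
      ring
    · rw [mul_zero, mul_zero]; exact Submodule.zero_mem _
    · intro c d _ _ h1 h2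
      rw [mul_add, mul_add]
      exact Submodule.add_mem _ h1 h2
    · intro t c _ h1
      rw [mul_smul_comm, mul_smul_comm]
      exact Submodule.smul_mem _ _ h1

/-- the rank of the powers -/
theorem rank_le {P Q : Submodule κ Ω} (hP : P ≠ ⊥) {D : ℕ} {q : Fin (D + 1) → Ω}
    (hQ : Q = Submodule.span κ (Set.range q)) (n : ℕ) :
    finrank (FF P) (Submodule.span (FF P) (((P ⊔ Q) ^ n : Submodule κ Ω) : Set Ω)) ≤
      (n + D + 1).choose n := by
  obtain ⟨p, hp, hp0⟩ := (Submodule.ne_bot_iff P).1 hP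
  set s : Fin (D + 1 + 1) → Ω := Fin.cons p q with hsdef
  set S : Submodule (FF P) Ω := Submodule.span (FF P) (Set.range s) with hS
  have hs0 : p ∈ S := Submodule.subset_span ⟨0, by simp [hsdef]⟩
  have hsj : ∀ j, q j ∈ S := fun j => Submodule.subset_span ⟨j.succ, by simp [hsdef]⟩
  have h1 : ∀ x ∈ P ⊔ Q, x ∈ S := by
    have h2 : P ⊔ Q ≤ S.restrictScalars κ := by
      refine sup_le ?_ ?_
      · intro x hx
        have h3 : (⟨x / p, div_mem_FF hx hp⟩ : FF P) • p = x := by
          change (x / p) • p = x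
          rw [smul_eq_mul, div_mul_cancel₀ _ hp0]
        have h4 := S.smul_mem (⟨x / p, div_mem_FF hx hp⟩ : FF P) hs0
        rw [h3] at h4
        exact h4
      · rw [hQ, Submodule.span_le]
        rintro _ ⟨j, rfl⟩
        exact hsj j
    exact fun x hx => h2 hx
  have h2 : ∀ k : ℕ, ∀ x ∈ (P ⊔ Q) ^ k, x ∈ S ^ k := by
    intro k
    induction k with
    | zero =>
      intro x hx
      rw [pow_zero] at hx ⊢
      obtain ⟨c, rfl⟩ := Submodule.mem_one.1 hx
      exact Submodule.mem_one.2 ⟨algebraMap κ (FF P) c, rfl⟩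
    | succ k ih =>
      intro x hx
      rw [pow_succ] at hx ⊢
      refine Submodule.mul_induction_on hx ?_ ?_
      · intro a ha b hb
        exact Submodule.mul_mem_mul (ih a ha) (h1 b hb)
      · intro a b ha hb
        exact add_mem ha hb
  set G : Sym (Fin (D + 1 + 1)) n → Ω := fun m => ((m : Multiset (Fin (D + 1 + 1))).map s).prod
    with hG
  have h3 : S ^ n ≤ Submodule.span (FF P) (Set.range G) := by
    rw [hS, Submodule.span_pow]
    apply Submodule.span_mono
    intro x hx
    rw [Set.mem_pow] at hx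
    obtain ⟨φ, rfl⟩ := hx
    choose idx hidx using fun i => (φ i).2
    refine ⟨⟨(List.ofFn idx : List _), by simp⟩, ?_⟩
    rw [hG]
    simp only [Sym.coe_mk, Multiset.map_coe, Multiset.prod_coe, List.map_ofFn]
    congr 1
    congr 1
    funext i
    exact hidx i
  have h4 : Submodule.span (FF P) (((P ⊔ Q) ^ n : Submodule κ Ω) : Set Ω) ≤
      Submodule.span (FF P) (Set.range G) := by
    rw [Submodule.span_le]
    intro x hx
    exact h3 (h2 n x hx)
  have : FiniteDimensional (FF P) (Submodule.span (FF P) (Set.range G)) :=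
    FiniteDimensional.span_of_finite _ (Set.finite_range G)
  refine (Submodule.finrank_mono h4).trans ((finrank_range_le_card G).trans ?_)
  rw [Sym.card_sym_eq_choose, Fintype.card_fin]
  apply le_of_eq
  congr 1
  omega

lemma arith {u v : ℕ → ℕ} {a b ρ σ m K K' : ℕ} (hu : ∀ n ≥ K, u (n + 1) = u n + a)
    (hv : ∀ n ≥ K', v (n + 1) = v n + b) (h : ∀ n, ρ * u n ≤ σ * v (n + m)) :
    ρ * a ≤ σ * b := by
  set L := K + K' with hL
  have h1 : ∀ j, u (L + j) = u L + j * a := by
    intro j
    induction j with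
    | zero => simp
    | succ j ih =>
      rw [← add_assoc, hu _ (by omega), ih]
      ring
  have h2 : ∀ j, v (L + j) = v L + j * b := by
    intro j
    induction j with
    | zero => simp
    | succ j ih =>
      rw [← add_assoc, hv _ (by omega), ih]
      ring
  by_contra hcon
  push Not at hcon
  have h3 : ∀ j, ρ * (u L + j * a) ≤ σ * (v L + (j + m) * b) := by
    intro j
    have := h (L + j)
    rw [h1, add_assoc, h2] at this
    exact this
  have h4 := h3 (σ * (v L + m * b) + 1)
  set T := σ * (v L + m * b) with hT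
  have h5 : (T + 1) * (σ * b + 1) ≤ (T + 1) * (ρ * a) := Nat.mul_le_mul_left _ hcon
  have e1 : ρ * (u L + (T + 1) * a) = ρ * u L + (T + 1) * (ρ * a) := by ring
  have e2 : σ * (v L + (T + 1 + m) * b) = T + (T + 1) * (σ * b) := by rw [hT]; ring
  rw [e1, e2] at h4
  have e3 : (T + 1) * (σ * b + 1) = (T + 1) * (σ * b) + (T + 1) := by ring
  rw [e3] at h5
  omega

theorem t_growth : Pool.Agent.Helper14D.S_growth := by
  intro κ Ω _ _ _ P Q hPfd hP hQ D q hq n0 h1 h2 a b ⟨K, hK⟩ ⟨K', hK'⟩
  have : FiniteDimensional κ Q := by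
    rw [hq]; exact FiniteDimensional.span_of_finite _ (Set.finite_range q)
  have : FiniteDimensional κ (P ⊔ Q : Submodule κ Ω) := Submodule.finiteDimensional_sup P Q
  have := fd_pow (P ⊔ Q) n0
  set C0 : Submodule κ Ω := (P ⊔ Q) ^ n0 with hC0
  have e1 : ∀ n, P ^ n * C0 = (P ⊔ Q) ^ (n0 + n) := by
    intro n
    refine le_antisymm ?_ (h1 n)
    rw [add_comm n0 n, pow_add]
    exact mul_le_mul' (pow_le_pow_left' le_sup_left n) le_rfl
  have e2 : ∀ n, Q ^ n * C0 = (P ⊔ Q) ^ (n0 + n) := by
    intro n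
    refine le_antisymm ?_ (h2 n)
    rw [add_comm n0 n, pow_add]
    exact mul_le_mul' (pow_le_pow_left' le_sup_right n) le_rfl
  obtain ⟨m, hm⟩ := growth_aux (C := C0) hP
  obtain ⟨m', hm'⟩ := growth_aux (C := C0) hQ
  have := fd_span (FF P) C0
  have := fd_span (FF Q) C0
  obtain ⟨p, hp, hp0⟩ := (Submodule.ne_bot_iff P).1 hP
  have hpC : p ^ n0 ∈ C0 := Submodule.pow_mem_pow _ (Submodule.mem_sup_left hp) n0
  have hpos : ∀ F : IntermediateField κ Ω, FiniteDimensional F (Submodule.span F (C0 : Set Ω)) →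
      0 < finrank F (Submodule.span F (C0 : Set Ω)) := by
    intro F hF
    have : Nontrivial (Submodule.span F (C0 : Set Ω)) :=
      ⟨⟨⟨p ^ n0, Submodule.subset_span hpC⟩, 0, fun h => pow_ne_zero n0 hp0
        (congrArg Subtype.val h)⟩⟩
    have := Module.Free.of_divisionRing F (Submodule.span F (C0 : Set Ω))
    exact Module.finrank_pos_iff.2 inferInstance
  refine ⟨finrank (FF P) (Submodule.span (FF P) (C0 : Set Ω)),
    finrank (FF Q) (Submodule.span (FF Q) (C0 : Set Ω)), hpos _ inferInstance,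
    hpos _ inferInstance, rank_le hP hq n0, ?_⟩
  apply le_antisymm
  · refine arith (u := fun n => finrank κ (P ^ n : Submodule κ Ω))
      (v := fun n => finrank κ (Q ^ n : Submodule κ Ω)) hK hK' (m := m')
      fun n => (hm n).1.trans ?_
    rw [e1, ← e2]
    exact (hm' n).2
  · refine arith (u := fun n => finrank κ (Q ^ n : Submodule κ Ω))
      (v := fun n => finrank κ (P ^ n : Submodule κ Ω)) hK' hK (m := m)
      fun n => (hm' n).1.trans ?_
    rw [e2, ← e1]
    exact (hm n).2

end growth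

end Pool.Agent.Helper57K1.VD
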